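import Mathlib

/-!
# Squares of small non-null sets can be naively Haar null

Let `G = (ℤ/2)^ℕ`. Every set `X ⊆ G × G` with fewer than `cov(N)` elements is naively Haar null: for
`r ∈ G ≅ (ℤ/2)^(ℕ × ℕ)` let `ψ_r : G → G` be the continuous homomorphism
`ψ_r(y)_n = ∑_{i ≤ n} r_{n,i} y_i`. For every `(a, b) ≠ 0` the set of the `r` with `ψ_r(a) = b` is null,
so there is `r` such that the graph of `ψ_r` contains no difference of two points of `X`. Then every
translate of `X` meets the graph in at most one point, and the image of the Haar measure of `G` on the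
graph is a witness. In particular, if `non(N) < cov(N)` (as in the random model), then the squares of all
sets `S ⊆ G` with `non(N)` elements are naively Haar null.
-/

set_option autoImplicit false

namespace Pool.Agent.Results.MP_547692_lc.SmallSquares

open MeasureTheory Set
open scoped Cardinal

/-- `X` is naively Haar null in the Polish group `H`, written additively: there is a Borel probability
measure `μ` such that all two-sided translates of `X` have outer measure `0`. -/
def NaivelyHaarNull {H : Type} [AddGroup H] [TopologicalSpace H] [MeasurableSpace H] [BorelSpace H]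
    (X : Set H) : Prop :=
  ∃ μ : Measure H, IsProbabilityMeasure μ ∧ ∀ g h : H, μ ((fun x => g + x + h) '' X) = 0

/-- `non(N)`: the least cardinality of a set of positive outer measure. -/
noncomputable def nonNull {G : Type} [MeasurableSpace G] (lam : Measure G) : Cardinal :=
  sInf {κ | ∃ A : Set G, #A = κ ∧ lam A ≠ 0}

/-- `cov(N)`: the least cardinality of a family of null sets that covers the space. -/
noncomputable def covNull {G : Type} [MeasurableSpace G] (lam : Measure G) : Cardinal :=
  sInf {κ | ∃ F : Set (Set G), #F = κ ∧ (∀ A ∈ F, lam A = 0) ∧ ⋃₀ F = Set.univ}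

/-- The Cantor group `(ℤ/2)^ℕ`. -/
abbrev CG : Type := ℕ → ZMod 2

/-! ### The Cantor group -/

instance : PolishSpace (ZMod 2) := by
  have : Countable (ZMod 2) := inferInstance
  infer_instance

theorem uncountable_CG : Uncountable CG := by
  rw [← Cardinal.aleph0_lt_mk_iff]
  have h1 : #CG = 2 ^ ℵ₀ := by
    rw [← Cardinal.power_def, Cardinal.mk_nat]
    congr 1
    rw [Cardinal.mk_fintype]
    norm_num [ZMod.card]
  rw [h1]
  exact Cardinal.cantor _

/-- the random homomorphism -/
def psi (r y : CG) : CG := fun n => ∑ i ∈ Finset.range (n + 1), r (Nat.pair n i) * y i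

theorem psi_add (r y z : CG) : psi r (y + z) = psi r y + psi r z := by
  funext n
  simp [psi, mul_add, Finset.sum_add_distrib]

theorem psi_add_left (r s y : CG) : psi (r + s) y = psi r y + psi s y := by
  funext n
  simp [psi, add_mul, Finset.sum_add_distrib]

theorem psi_sub (r y z : CG) : psi r (y - z) = psi r y - psi r z := by
  rw [eq_sub_iff_add_eq, ← psi_add, sub_add_cancel]

theorem continuous_mul_ZMod : Continuous fun p : ZMod 2 × ZMod 2 => p.1 * p.2 :=
  continuous_of_discreteTopology

theorem continuous_psi_right (r : CG) : Continuous (psi r) := by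
  refine continuous_pi fun n => ?_
  exact continuous_finsetSum _ fun i _ =>
    continuous_mul_ZMod.comp (continuous_const.prodMk (continuous_apply i))

theorem continuous_psi_left (y : CG) : Continuous fun r => psi r y := by
  refine continuous_pi fun n => ?_
  refine continuous_finsetSum _ fun i _ => ?_
  have h1 : Continuous fun a : CG => (a (Nat.pair n i), y i) :=
    (continuous_apply (Nat.pair n i)).prodMk continuous_const
  exact continuous_mul_ZMod.comp h1

/-- the set of the `r` whose graph contains `p` -/
def Bad (p : CG × CG) : Set CG := {r | psi r p.1 = p.2}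

theorem isClosed_bad (p : CG × CG) : IsClosed (Bad p) :=
  isClosed_eq (continuous_psi_left p.1) continuous_const

theorem null_of_translates (lam : Measure CG) [lam.IsAddHaarMeasure] {A : Set CG}
    (hA : MeasurableSet A) (d : ℕ → CG)
    (h : ∀ m k, m ≠ k → ∀ r ∈ A, ∀ s ∈ A, d m + r ≠ d k + s) : lam A = 0 := by
  by_contra h0
  have h1 : ∀ m, lam ((fun x => -d m + x) ⁻¹' A) = lam A := fun m => measure_preimage_add _ _ _
  have h2 : Pairwise (Function.onFun Disjoint fun m => (fun x => -d m + x) ⁻¹' A) := by
    intro m k hmk
    rw [Function.onFun, Set.disjoint_left]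
    intro x hx hx'
    exact h m k hmk _ hx _ hx' (by simp)
  have h3 := measure_iUnion (μ := lam) h2 fun m => (measurable_const_add _) hA
  simp only [h1] at h3
  rw [ENNReal.tsum_const_eq_top_of_ne_zero h0] at h3
  exact (measure_ne_top lam _) h3

theorem psi_single (m j i : ℕ) (hji : j ≤ m) (a : CG) :
    psi (Pi.single (Nat.pair m j) 1) a i = if i = m then a j else 0 := by
  unfold psi
  split_ifs with h
  · subst h
    rw [Finset.sum_eq_single j]
    · simp
    · intro k _ hk
      rw [Pi.single_eq_of_ne, zero_mul]
      intro h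
      exact hk (Nat.pair_eq_pair.1 h).2
    · intro h
      exact absurd (Finset.mem_range.2 (by omega)) h
  · refine Finset.sum_eq_zero fun k _ => ?_
    rw [Pi.single_eq_of_ne, zero_mul]
    intro h'
    exact h (Nat.pair_eq_pair.1 h').1

theorem bad_null (lam : Measure CG) [lam.IsAddHaarMeasure] {p : CG × CG} (hp : p ≠ 0) :
    lam (Bad p) = 0 := by
  obtain ⟨a, b⟩ := p
  by_cases ha : a = 0
  · subst ha
    have h1 : Bad (0, b) = ∅ := by
      ext r
      rw [mem_empty_iff_false, iff_false]
      intro (h : psi r 0 = b)
      have h0 : psi r 0 = 0 := by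
        funext n
        simp [psi]
      rw [h0] at h
      exact hp (by rw [← h]; rfl)
    rw [h1, measure_empty]
  · obtain ⟨j, hj⟩ : ∃ j, a j ≠ 0 := Function.ne_iff.1 ha
    refine null_of_translates lam (isClosed_bad _).measurableSet
      (fun m => Pi.single (Nat.pair (m + j) j) 1) fun m k hmk r hr s hs h => ?_
    have h1 := congrFun (congrArg (fun r => psi r a) h) (m + j)
    simp only [psi_add_left, Pi.add_apply] at h1
    rw [psi_single _ _ _ (by omega), psi_single _ _ _ (by omega), if_pos rfl, if_neg (by omega)] at h1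
    have h2 : psi r a = b := hr
    have h3 : psi s a = b := hs
    rw [h2, h3, zero_add] at h1
    exact hj (by simpa using h1)

theorem singleton_null (lam : Measure CG) [lam.IsAddHaarMeasure] (y : CG) : lam {y} = 0 := by
  refine null_of_translates lam (measurableSet_singleton y) (fun m => Pi.single m 1)
    fun m k hmk r hr s hs h => ?_
  rw [mem_singleton_iff.1 hr, mem_singleton_iff.1 hs] at h
  have h1 := congrFun (add_right_cancel h) m
  rw [Pi.single_eq_same, Pi.single_eq_of_ne hmk] at h1
  exact one_ne_zero h1

/-! ### Cardinals -/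

theorem aleph0_le_cov (lam : Measure CG) [lam.IsAddHaarMeasure] : ℵ₀ ≤ covNull lam := by
  refine le_csInf ⟨_, range (fun y : CG => ({y} : Set CG)), rfl, ?_, ?_⟩ ?_
  · rintro _ ⟨y, rfl⟩
    exact singleton_null lam y
  · rw [sUnion_range, iUnion_of_singleton]
  · rintro κ ⟨F, rfl, hF, hU⟩
    by_contra h
    have h1 : F.Countable := (Cardinal.mk_lt_aleph0_iff.1 (not_le.1 h)).to_countable
    have h2 : lam (⋃₀ F) = 0 := (measure_sUnion_null_iff h1).2 hF
    rw [hU] at h2
    exact (NeZero.ne (lam Set.univ)) h2

theorem exists_good (lam : Measure CG) [lam.IsAddHaarMeasure] {X : Set (CG × CG)}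
    (hX : #X < covNull lam) : ∃ r : CG, ∀ x ∈ X, ∀ x' ∈ X, x ≠ x' → r ∉ Bad (x - x') := by
  by_contra h0
  push Not at h0
  let P : Set (X × X) := {q | q.1 ≠ q.2}
  let F : Set (Set CG) := (fun q : X × X => Bad (q.1.1 - q.2.1)) '' P
  have h1 : #F < covNull lam := by
    refine (Cardinal.mk_image_le.trans (Cardinal.mk_set_le P)).trans_lt ?_
    rw [Cardinal.mk_prod, Cardinal.lift_id]
    exact Cardinal.mul_lt_of_lt (aleph0_le_cov lam) hX hX
  have h2 : covNull lam ≤ #F := by
    refine csInf_le' ⟨F, rfl, ?_, ?_⟩
    · rintro _ ⟨q, hq, rfl⟩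
      exact bad_null lam (sub_ne_zero.2 fun h => hq (Subtype.ext h))
    · refine eq_univ_of_forall fun r => ?_
      obtain ⟨x, hx, x', hx', hne, hr⟩ := h0 r
      exact ⟨_, ⟨(⟨x, hx⟩, ⟨x', hx'⟩), fun h => hne (congrArg Subtype.val h), rfl⟩, hr⟩
  exact absurd h2 (not_le.2 h1)

/-! ### The main theorem -/

theorem small_null (lam : Measure CG) [lam.IsAddHaarMeasure] {X : Set (CG × CG)}
    (hX : #X < covNull lam) : NaivelyHaarNull X := by
  obtain ⟨r, hr⟩ := exists_good lam hX
  let f : CG → CG × CG := fun y => (y, psi r y)
  have hf : Continuous f := continuous_id.prodMk (continuous_psi_right r)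
  have hinj : Function.Injective f := fun y z h => congrArg Prod.fst h
  let nu : Measure CG := (lam Set.univ)⁻¹ • lam
  have hnu : IsProbabilityMeasure nu := isProbabilityMeasureSMul
  refine ⟨nu.map f, Measure.isProbabilityMeasure_map hf.measurable.aemeasurable, fun g h => ?_⟩
  have hR : IsClosed (range f) := (isCompact_range hf).isClosed
  have h1 : nu.map f (range f)ᶜ = 0 := by
    rw [Measure.map_apply hf.measurable hR.measurableSet.compl]
    have : f ⁻¹' (range f)ᶜ = ∅ := by
      ext y
      simp
    rw [this, measure_empty]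
  have h2 : ∀ c, nu.map f {c} = 0 := by
    intro c
    rw [Measure.map_apply hf.measurable (measurableSet_singleton c)]
    have h3 : f ⁻¹' {c} ⊆ {c.1} := by
      intro y hy
      exact congrArg Prod.fst hy
    refine measure_mono_null h3 ?_
    simp [nu, singleton_null lam c.1]
  -- two points of the translate on the graph coincide
  have h4 : ∀ c ∈ ((fun x => g + x + h) '' X) ∩ range f, ∀ c' ∈ ((fun x => g + x + h) '' X) ∩ range f,
      c = c' := by
    rintro _ ⟨⟨x, hx, rfl⟩, ⟨y, hy⟩⟩ _ ⟨⟨x', hx', rfl⟩, ⟨y', hy'⟩⟩
    by_contra hne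
    have hxx : x ≠ x' := by
      rintro rfl
      exact hne rfl
    refine hr x hx x' hx' hxx ?_
    have h5 : x - x' = f y - f y' := by
      rw [hy, hy']
      simp only
      abel
    show psi r (x - x').1 = (x - x').2
    rw [h5]
    show psi r (y - y') = psi r y - psi r y'
    exact psi_sub r y y'
  rcases (((fun x => g + x + h) '' X) ∩ range f).eq_empty_or_nonempty with h5 | ⟨c, hc⟩
  · refine measure_mono_null (t := (range f)ᶜ) (fun z hz => ?_) h1
    intro hz'
    exact (h5 ▸ (⟨hz, hz'⟩ : z ∈ ((fun x => g + x + h) '' X) ∩ range f) : z ∈ (∅ : Set (CG × CG)))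
  · refine measure_mono_null (t := {c} ∪ (range f)ᶜ) (fun z hz => ?_) (measure_union_null (h2 c) h1)
    by_cases hz' : z ∈ range f
    · exact Or.inl (h4 z ⟨hz, hz'⟩ c hc)
    · exact Or.inr hz'

/-- **Small sets are naively Haar null, and so are squares of small non-null sets if `non < cov`.**
The Cantor group `CG = (ℤ/2)^ℕ` is an uncountable compact (so locally compact) Polish group. Let `lam`
be a Haar measure of `CG`, which defines `non(N) = nonNull lam` and `cov(N) = covNull lam`. Every subset
of `CG × CG` with fewer than `cov(N)` elements is naively Haar null. So if `non(N) < cov(N)`, as for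
example in the random model, then `S × S` is naively Haar null for every `S ⊆ CG` with `non(N)`
elements. -/
theorem result :
    (Uncountable CG ∧ CompactSpace CG ∧ PolishSpace CG ∧ IsTopologicalAddGroup CG) ∧
      ∀ (lam : Measure CG) [lam.IsAddHaarMeasure],
        (∀ X : Set (CG × CG), #X < covNull lam → NaivelyHaarNull X) ∧
        (nonNull lam < covNull lam → ∀ S : Set CG, #S = nonNull lam → NaivelyHaarNull (S ×ˢ S)) := by
  refine ⟨⟨uncountable_CG, inferInstance, inferInstance, inferInstance⟩, fun lam _ =>
    ⟨fun X hX => small_null lam hX, fun h S hS => small_null lam ?_⟩⟩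
  rw [← hS] at h
  have h1 : #(S ×ˢ S : Set (CG × CG)) = #S * #S := by
    rw [Cardinal.mk_congr (Equiv.Set.prod S S), Cardinal.mk_prod, Cardinal.lift_id]
  rw [h1]
  exact Cardinal.mul_lt_of_lt (aleph0_le_cov lam) h h

end Pool.Agent.Results.MP_547692_lc.SmallSquares
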